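import Mathlib

set_option autoImplicit false

namespace Pool.Agent.Lib4704

open Filter Topology
open scoped RealInnerProductSpace ContDiff

variable {H : Type*} [NormedAddCommGroup H] [InnerProductSpace ℝ H] [CompleteSpace H]

/-- The operator `(1 - T†T)⁻¹`. -/
noncomputable def R (T : H →L[ℝ] H) : H →L[ℝ] H :=
  Ring.inverse (1 - (ContinuousLinearMap.adjoint T) ∘L T)

lemma isUnit_aux {T : H →L[ℝ] H} (hT : ‖T‖ < 1) :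
    IsUnit (1 - (ContinuousLinearMap.adjoint T) ∘L T) := by
  have h : ‖(ContinuousLinearMap.adjoint T) ∘L T‖ < 1 := by
    rw [ContinuousLinearMap.norm_adjoint_comp_self]
    nlinarith [norm_nonneg T]
  exact (Units.oneSub _ h).isUnit

lemma R_apply {T : H →L[ℝ] H} (hT : ‖T‖ < 1) (e : H) :
    R T e - ContinuousLinearMap.adjoint T (T (R T e)) = e := by
  have h := Ring.mul_inverse_cancel _ (isUnit_aux hT)
  have h2 := congrArg (fun S : H →L[ℝ] H => S e) h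
  simpa [R] using h2

/-- `⟨e, (1 - T†T)⁻¹ e⟩` -/
noncomputable def G (T : H →L[ℝ] H) (e : H) : ℝ := ⟪e, R T e⟫

lemma G_eq {T : H →L[ℝ] H} (hT : ‖T‖ < 1) (e : H) :
    G T e = ‖R T e‖ ^ 2 - ‖T (R T e)‖ ^ 2 := by
  have h := R_apply hT e
  have h2 : ⟪R T e - ContinuousLinearMap.adjoint T (T (R T e)), R T e⟫ = ⟪e, R T e⟫ := by rw [h]
  rw [inner_sub_left, ContinuousLinearMap.adjoint_inner_left, real_inner_self_eq_norm_sq,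
    real_inner_self_eq_norm_sq] at h2
  exact h2.symm

lemma G_ge {T : H →L[ℝ] H} (hT : ‖T‖ < 1) (e x : H) :
    2 * ⟪e, x⟫ - ‖x‖ ^ 2 + ‖T x‖ ^ 2 ≤ G T e := by
  set x₀ := R T e with hx₀
  have h0 := G_eq hT e
  rw [← hx₀] at h0
  have h1 : ⟪x, x₀⟫ - ⟪T x, T x₀⟫ = ⟪e, x⟫ := by
    have h := R_apply hT e
    rw [← hx₀] at h
    have h2 : ⟪x, x₀ - ContinuousLinearMap.adjoint T (T x₀)⟫ = ⟪x, e⟫ := by rw [h]
    rw [inner_sub_right, ContinuousLinearMap.adjoint_inner_right] at h2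
    rw [real_inner_comm e x] at h2
    exact h2
  have h2 : ‖T (x - x₀)‖ ^ 2 ≤ ‖x - x₀‖ ^ 2 := by
    have h3 : ‖T (x - x₀)‖ ≤ ‖x - x₀‖ := by
      calc ‖T (x - x₀)‖ ≤ ‖T‖ * ‖x - x₀‖ := T.le_opNorm _
        _ ≤ 1 * ‖x - x₀‖ := mul_le_mul_of_nonneg_right hT.le (norm_nonneg _)
        _ = ‖x - x₀‖ := one_mul _
    exact pow_le_pow_left₀ (norm_nonneg _) h3 2
  rw [map_sub, norm_sub_sq_real, norm_sub_sq_real] at h2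
  linarith

lemma G_nonneg {T : H →L[ℝ] H} (hT : ‖T‖ < 1) (e : H) : 0 ≤ G T e := by
  have := G_ge hT e 0
  simpa using this

lemma G_le {T : H →L[ℝ] H} (hT : ‖T‖ < 1) (e : H) : G T e ≤ ‖e‖ ^ 2 / (1 - ‖T‖ ^ 2) := by
  have h0 := G_eq hT e
  have h1 : 0 < 1 - ‖T‖ ^ 2 := by nlinarith [norm_nonneg T]
  rw [le_div_iff₀ h1]
  set x₀ := R T e
  have h2 : G T e ≤ ‖e‖ * ‖x₀‖ := real_inner_le_norm e x₀
  have h3 : ‖T x₀‖ ^ 2 ≤ ‖T‖ ^ 2 * ‖x₀‖ ^ 2 := by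
    rw [← mul_pow]
    exact pow_le_pow_left₀ (norm_nonneg _) (T.le_opNorm _) 2
  have h4 : (1 - ‖T‖ ^ 2) * ‖x₀‖ ^ 2 ≤ G T e := by nlinarith
  have h5 : 0 ≤ G T e := G_nonneg hT e
  have h6 := norm_nonneg e
  have h7 := norm_nonneg x₀
  -- G ≤ ‖e‖‖x₀‖, (1-τ)‖x₀‖² ≤ G
  by_cases hG : G T e = 0
  · rw [hG]; nlinarith [sq_nonneg ‖e‖]
  · have hGpos : 0 < G T e := lt_of_le_of_ne h5 (Ne.symm hG)
    have h8 : (G T e) ^ 2 ≤ ‖e‖ ^ 2 * ‖x₀‖ ^ 2 := by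
      rw [← mul_pow]; exact pow_le_pow_left₀ h5 h2 2
    have h9 : (G T e) ^ 2 * (1 - ‖T‖ ^ 2) ≤ ‖e‖ ^ 2 * G T e := by
      calc (G T e) ^ 2 * (1 - ‖T‖ ^ 2) ≤ (‖e‖ ^ 2 * ‖x₀‖ ^ 2) * (1 - ‖T‖ ^ 2) :=
            mul_le_mul_of_nonneg_right h8 h1.le
        _ = ‖e‖ ^ 2 * ((1 - ‖T‖ ^ 2) * ‖x₀‖ ^ 2) := by ring
        _ ≤ ‖e‖ ^ 2 * G T e := mul_le_mul_of_nonneg_left h4 (sq_nonneg _)
    have h10 : G T e * (G T e * (1 - ‖T‖ ^ 2)) ≤ G T e * ‖e‖ ^ 2 := by nlinarith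
    exact le_of_mul_le_mul_left h10 hGpos

lemma G_convex {T₁ T₂ : H →L[ℝ] H} (h1 : ‖T₁‖ < 1) (h2 : ‖T₂‖ < 1) {a b : ℝ} (ha : 0 ≤ a)
    (hb : 0 ≤ b) (hab : a + b = 1) (hT : ‖a • T₁ + b • T₂‖ < 1) (e : H) :
    G (a • T₁ + b • T₂) e ≤ a * G T₁ e + b * G T₂ e := by
  set T := a • T₁ + b • T₂ with hTdef
  set x₀ := R T e with hx₀
  have h0 : G T e = 2 * ⟪e, x₀⟫ - ‖x₀‖ ^ 2 + ‖T x₀‖ ^ 2 := by
    have h3 := G_eq hT e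
    have h4 : G T e = ⟪e, x₀⟫ := rfl
    linarith
  have h3 := G_ge h1 e x₀
  have h4 := G_ge h2 e x₀
  have h5 : ‖T x₀‖ ^ 2 ≤ a * ‖T₁ x₀‖ ^ 2 + b * ‖T₂ x₀‖ ^ 2 := by
    have h6 : ‖T x₀‖ ≤ a * ‖T₁ x₀‖ + b * ‖T₂ x₀‖ := by
      rw [hTdef]
      simp only [add_apply, smul_apply]
      refine (norm_add_le _ _).trans (le_of_eq ?_)
      rw [norm_smul, norm_smul, Real.norm_eq_abs, Real.norm_eq_abs, abs_of_nonneg ha,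
        abs_of_nonneg hb]
    have h7 : ‖T x₀‖ ^ 2 ≤ (a * ‖T₁ x₀‖ + b * ‖T₂ x₀‖) ^ 2 :=
      pow_le_pow_left₀ (norm_nonneg _) h6 2
    have h8 : b = 1 - a := by linarith
    subst h8
    nlinarith [mul_nonneg (mul_nonneg ha hb) (sq_nonneg (‖T₁ x₀‖ - ‖T₂ x₀‖))]
  have h8 : b = 1 - a := by linarith
  rw [h0]
  have h9 := mul_le_mul_of_nonneg_left h3 ha
  have h10 := mul_le_mul_of_nonneg_left h4 hb
  have h11 : 2 * ⟪e, x₀⟫ - ‖x₀‖ ^ 2 = a * (2 * ⟪e, x₀⟫ - ‖x₀‖ ^ 2) + b * (2 * ⟪e, x₀⟫ - ‖x₀‖ ^ 2) := by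
    rw [← add_mul, hab, one_mul]
  nlinarith

lemma G_neg (T : H →L[ℝ] H) (e : H) : G (-T) e = G T e := by
  simp [G, R]

/-- blow-up near the sphere -/
lemma G_blowup {T : H →L[ℝ] H} {v : H} (hv : ‖v‖ ≤ 1) (hTv : ‖T v‖ = ‖T‖) {s : ℝ} (hs : 0 ≤ s)
    (hsT : s * ‖T‖ < 1) (e : H) :
    ⟪e, v⟫ ^ 2 ≤ (1 - (s * ‖T‖) ^ 2) * G (s • T) e := by
  have hnorm : ‖s • T‖ < 1 := by
    rw [norm_smul, Real.norm_eq_abs, abs_of_nonneg hs]; exact hsT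
  have h1 : 0 < 1 - (s * ‖T‖) ^ 2 := by
    have := mul_nonneg hs (norm_nonneg T)
    nlinarith
  set δ := 1 - (s * ‖T‖) ^ 2 with hδ
  have h2 := G_ge hnorm e ((⟪e, v⟫ / δ) • v)
  rw [inner_smul_right, smul_apply, map_smul, norm_smul, norm_smul, norm_smul,
    hTv] at h2
  simp only [Real.norm_eq_abs, mul_pow, sq_abs] at h2
  have h3 : ‖v‖ ^ 2 ≤ 1 := by nlinarith [norm_nonneg v]
  set α := ⟪e, v⟫
  have h4 : (α / δ) ^ 2 * ‖v‖ ^ 2 ≤ (α / δ) ^ 2 * 1 :=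
    mul_le_mul_of_nonneg_left h3 (sq_nonneg _)
  have h5 : 2 * (α / δ * α) - (α / δ) ^ 2 * 1 + s ^ 2 * ((α / δ) ^ 2 * ‖T‖ ^ 2) ≤ G (s • T) e := by
    linarith
  have h6 : 2 * (α / δ * α) - (α / δ) ^ 2 * 1 + s ^ 2 * ((α / δ) ^ 2 * ‖T‖ ^ 2) = α ^ 2 / δ := by
    have : 1 - s ^ 2 * ‖T‖ ^ 2 = δ := by rw [hδ]; ring
    have e1 : 2 * (α / δ * α) - (α / δ) ^ 2 * 1 + s ^ 2 * ((α / δ) ^ 2 * ‖T‖ ^ 2)
        = 2 * (α / δ * α) - (α / δ) ^ 2 * (1 - s ^ 2 * ‖T‖ ^ 2) := by ring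
    rw [e1, this]
    field_simp
    ring
  rw [h6, div_le_iff₀ h1] at h5
  linarith

/-- a compact operator attains its norm -/
lemma exists_norm_attained {T : H →L[ℝ] H} (hT : IsCompactOperator T) (h0 : T ≠ 0) :
    ∃ v : H, ‖v‖ ≤ 1 ∧ ‖T v‖ = ‖T‖ := by
  have hpos : 0 < ‖T‖ := norm_pos_iff.2 h0
  have hex : ∀ n : ℕ, ∃ x : H, ‖x‖ < 1 ∧ ‖T‖ - 1 / (n + 1) < ‖T x‖ := by
    intro n
    have : ‖T‖ - 1 / ((n : ℝ) + 1) < ‖T‖ := by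
      have : 0 < 1 / ((n : ℝ) + 1) := by positivity
      linarith
    exact T.exists_lt_apply_of_lt_opNorm this
  choose x hx1 hx2 using hex
  have hcomp := hT.isCompact_closure_image_closedBall (f := (T : H →ₗ[ℝ] H)) 1
  have hmem : ∀ n, T (x n) ∈ closure ((T : H →ₗ[ℝ] H) '' Metric.closedBall 0 1) := by
    intro n
    apply subset_closure
    exact ⟨x n, by simpa using (hx1 n).le, rfl⟩
  obtain ⟨y, _, φ, hφ, hlim⟩ := hcomp.tendsto_subseq hmem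
  have hTx : Tendsto (fun n => ‖T (x (φ n))‖) atTop (𝓝 ‖T‖) := by
    have hl : Tendsto (fun n : ℕ => ‖T‖ - 1 / ((φ n : ℝ) + 1)) atTop (𝓝 (‖T‖ - 0)) := by
      apply Tendsto.sub tendsto_const_nhds
      exact (tendsto_one_div_add_atTop_nhds_zero_nat (𝕜 := ℝ)).comp hφ.tendsto_atTop
    rw [sub_zero] at hl
    refine tendsto_of_tendsto_of_tendsto_of_le_of_le hl tendsto_const_nhds
      (fun n => (hx2 (φ n)).le) (fun n => ?_)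
    calc ‖T (x (φ n))‖ ≤ ‖T‖ * ‖x (φ n)‖ := T.le_opNorm _
      _ ≤ ‖T‖ * 1 := mul_le_mul_of_nonneg_left (hx1 _).le hpos.le
      _ = ‖T‖ := mul_one _
  set A := ContinuousLinearMap.adjoint T
  have hA : Tendsto (fun n => A (T (x (φ n)))) atTop (𝓝 (A y)) :=
    (A.continuous.tendsto y).comp hlim
  -- ‖T‖² x - A T x → 0
  have hdiff : Tendsto (fun n => ‖T‖ ^ 2 • x (φ n) - A (T (x (φ n)))) atTop (𝓝 0) := by
    rw [tendsto_zero_iff_norm_tendsto_zero]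
    have hsq : Tendsto (fun n => Real.sqrt (2 * ‖T‖ ^ 4 - 2 * ‖T‖ ^ 2 * ‖T (x (φ n))‖ ^ 2)) atTop
        (𝓝 0) := by
      have : Tendsto (fun n => 2 * ‖T‖ ^ 4 - 2 * ‖T‖ ^ 2 * ‖T (x (φ n))‖ ^ 2) atTop
          (𝓝 (2 * ‖T‖ ^ 4 - 2 * ‖T‖ ^ 2 * ‖T‖ ^ 2)) :=
        tendsto_const_nhds.sub (tendsto_const_nhds.mul (hTx.pow 2))
      have h2 := (Real.continuous_sqrt.tendsto _).comp this
      have h3 : 2 * ‖T‖ ^ 4 - 2 * ‖T‖ ^ 2 * ‖T‖ ^ 2 = 0 := by ring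
      rw [h3, Real.sqrt_zero] at h2
      exact h2
    refine squeeze_zero (fun n => norm_nonneg _) (fun n => ?_) hsq
    apply Real.le_sqrt_of_sq_le
    rw [norm_sub_sq_real, inner_smul_left, ContinuousLinearMap.adjoint_inner_right,
      real_inner_self_eq_norm_sq, norm_smul]
    simp only [conj_trivial, norm_pow, norm_norm]
    have hx' : ‖x (φ n)‖ ≤ 1 := (hx1 _).le
    have hxn := norm_nonneg (x (φ n))
    have hAT : ‖A (T (x (φ n)))‖ ≤ ‖T‖ ^ 2 := by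
      calc ‖A (T (x (φ n)))‖ ≤ ‖A‖ * ‖T (x (φ n))‖ := A.le_opNorm _
        _ ≤ ‖T‖ * (‖T‖ * ‖x (φ n)‖) := by
            have : ‖A‖ = ‖T‖ := by simp [A]
            rw [this]
            exact mul_le_mul_of_nonneg_left (T.le_opNorm _) hpos.le
        _ ≤ ‖T‖ * (‖T‖ * 1) := by gcongr
        _ = ‖T‖ ^ 2 := by ring
    have h4 : ‖A (T (x (φ n)))‖ ^ 2 ≤ ‖T‖ ^ 4 := by
      calc ‖A (T (x (φ n)))‖ ^ 2 ≤ (‖T‖ ^ 2) ^ 2 := pow_le_pow_left₀ (norm_nonneg _) hAT 2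
        _ = ‖T‖ ^ 4 := by ring
    have h5 : (‖T‖ ^ 2 * ‖x (φ n)‖) ^ 2 ≤ ‖T‖ ^ 4 := by
      have : (‖T‖ ^ 2 * ‖x (φ n)‖) ^ 2 = ‖T‖ ^ 4 * ‖x (φ n)‖ ^ 2 := by ring
      rw [this]
      have h6 : ‖x (φ n)‖ ^ 2 ≤ 1 := by nlinarith
      nlinarith [pow_pos hpos 4]
    linarith
  have hx : Tendsto (fun n => ‖T‖ ^ 2 • x (φ n)) atTop (𝓝 (A y)) := by
    have := hdiff.add hA
    simpa using this
  have hx' : Tendsto (fun n => x (φ n)) atTop (𝓝 ((‖T‖ ^ 2)⁻¹ • A y)) := by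
    have := hx.const_smul ((‖T‖ ^ 2)⁻¹)
    have hne : ‖T‖ ^ 2 ≠ 0 := (pow_pos hpos 2).ne'
    simpa [smul_smul, inv_mul_cancel₀ hne] using this
  refine ⟨(‖T‖ ^ 2)⁻¹ • A y, ?_, ?_⟩
  · exact le_of_tendsto (hx'.norm) (Eventually.of_forall fun n => (hx1 _).le)
  · have h1 : Tendsto (fun n => ‖T (x (φ n))‖) atTop (𝓝 ‖T ((‖T‖ ^ 2)⁻¹ • A y)‖) :=
      ((T.continuous.tendsto _).comp hx').norm
    exact tendsto_nhds_unique h1 hTx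

end Pool.Agent.Lib4704
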