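import Pool.Agent.Lib_MP_4704fc09_an.Final

/-! # The concrete case `K(ℓ₂)` of the analytic renorming theorem `Pool.Agent.Lib4704.main`. -/

set_option autoImplicit false

namespace Pool.Agent.Lib4704.Ell2

abbrev HH := lp (fun _ : ℕ => ℝ) 2

noncomputable abbrev KK :=
  compactOperator (RingHom.id ℝ) (lp (fun _ : ℕ => ℝ) 2) (lp (fun _ : ℕ => ℝ) 2)

theorem hclosed : IsClosed (KK : Set (HH →L[ℝ] HH)) := isClosed_setOfPred_isCompactOperator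

instance : CompleteSpace ↥KK := hclosed.completeSpace_coe

noncomputable def ι : ↥KK →L[ℝ] (HH →L[ℝ] HH) := KK.subtypeL

theorem hι : ∀ T : ↥KK, ‖ι T‖ = ‖T‖ := fun _ => rfl

theorem hcomp : ∀ T : ↥KK, IsCompactOperator (ι T) := fun T => T.2

noncomputable def e : ℕ → lp (fun _ : ℕ => ℝ) 2 := fun n => lp.single 2 n (1 : ℝ)

theorem he : ∀ n, ‖e n‖ ≤ 1 := by
  intro n
  have h2 : (0 : ENNReal) < 2 := two_pos
  have h := lp.norm_single (E := fun _ : ℕ => ℝ) (p := 2) h2 n (1 : ℝ)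
  rw [norm_one] at h
  exact h.le

theorem htot : ∀ v : lp (fun _ : ℕ => ℝ) 2, (∀ n, inner ℝ (e n) v = 0) → v = 0 := by
  intro v hv
  apply lp.ext
  funext n
  have h1 := hv n
  have h2 := lp.inner_single_left (𝕜 := ℝ) (G := fun _ : ℕ => ℝ) n (1 : ℝ) v
  have h3 : inner ℝ (1 : ℝ) (v n) = 0 := h2.symm.trans h1
  have h4 : inner ℝ (1 : ℝ) (v n) = v n * 1 := rfl
  rw [h4, mul_one] at h3
  exact h3

theorem exists_analytic_norm :
    ∃ N : Seminorm ℝ ↥KK, (∀ T : ↥KK, 1 * ‖T‖ ≤ N T ∧ N T ≤ 2 * ‖T‖) ∧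
      AnalyticOnNhd ℝ (fun T => N T) {T : ↥KK | T ≠ 0} :=
  @Pool.Agent.Lib4704.main HH _ _ _ ↥KK _ _ _ ι hι hcomp e he htot

end Pool.Agent.Lib4704.Ell2
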