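import Pool.Agent.Lib_MP_4704fc09_an.Main

set_option autoImplicit false

namespace Pool.Agent.Lib4704

open Filter Topology
open scoped RealInnerProductSpace ContDiff

variable {H : Type*} [NormedAddCommGroup H] [InnerProductSpace ℝ H] [CompleteSpace H]
variable {X : Type*} [NormedAddCommGroup X] [NormedSpace ℝ X]

/-- the open unit ball of the new norm -/
def U (ι : X →L[ℝ] (H →L[ℝ] H)) {e : ℕ → H} (he : ∀ n, ‖e n‖ ≤ 1) : Set X :=
  {T | ‖T‖ < 1 ∧ F he (ι T) < 2}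

lemma U_convex (ι : X →L[ℝ] (H →L[ℝ] H)) (hι : ∀ T, ‖ι T‖ = ‖T‖) {e : ℕ → H}
    (he : ∀ n, ‖e n‖ ≤ 1) : Convex ℝ (U ι he) := by
  rintro T₁ ⟨h1, h1'⟩ T₂ ⟨h2, h2'⟩ a b ha hb hab
  have hn : ‖a • T₁ + b • T₂‖ < 1 := by
    have := (convex_ball (0 : X) 1)
      (x := T₁) (by simpa using h1) (y := T₂) (by simpa using h2) ha hb hab
    simpa using this
  refine ⟨hn, ?_⟩
  have h3 := F_convex he (T₁ := ι T₁) (T₂ := ι T₂) (by rwa [hι]) (by rwa [hι]) ha hb hab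
    (by rw [← map_smul, ← map_smul, ← map_add, hι]; exact hn)
  rw [map_add, map_smul, map_smul]
  refine h3.trans_lt ?_
  rcases ha.eq_or_lt with rfl | ha'
  · have : b = 1 := by linarith
    subst this
    linarith
  · nlinarith

lemma F_smul_le {e : ℕ → H} (he : ∀ n, ‖e n‖ ≤ 1) {T : H →L[ℝ] H} (hT : ‖T‖ < 1) {a : ℝ}
    (ha : 0 ≤ a) (ha1 : a ≤ 1) : F he (a • T) ≤ a * F he T + (1 - a) * F he 0 := by
  have hn : ‖a • T + (1 - a) • (0 : H →L[ℝ] H)‖ < 1 := by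
    rw [smul_zero, add_zero, norm_smul, Real.norm_eq_abs, abs_of_nonneg ha]
    nlinarith [norm_nonneg T]
  have := F_convex he (T₁ := T) (T₂ := 0) hT (by simp) ha (sub_nonneg.2 ha1) (by ring) hn
  simpa using this

lemma U_balanced (ι : X →L[ℝ] (H →L[ℝ] H)) (hι : ∀ T, ‖ι T‖ = ‖T‖) {e : ℕ → H}
    (he : ∀ n, ‖e n‖ ≤ 1) : Balanced ℝ (U ι he) := by
  rw [balanced_iff_smul_mem]
  rintro a ha T ⟨h1, h1'⟩
  rw [Real.norm_eq_abs] at ha
  have h1n : ‖ι T‖ < 1 := by rwa [hι]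
  refine ⟨?_, ?_⟩
  · rw [norm_smul, Real.norm_eq_abs]
    nlinarith [norm_nonneg T, abs_nonneg a]
  · have h2 : F he (ι (a • T)) = F he (|a| • ι T) := by
      rw [map_smul]
      rcases abs_choice a with h | h
      · rw [h]
      · rw [h, neg_smul, F_neg]
    rw [h2]
    have h3 := F_smul_le he h1n (abs_nonneg a) ha
    have h4 := F_zero he
    have ha0 := abs_nonneg a
    refine h3.trans_lt ?_
    rcases ha0.eq_or_lt with h | h
    · rw [← h]; linarith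
    · nlinarith

lemma continuousAt_F (ι : X →L[ℝ] (H →L[ℝ] H)) (hι : ∀ T, ‖ι T‖ = ‖T‖) {e : ℕ → H}
    (he : ∀ n, ‖e n‖ ≤ 1) {T : X} (hT : ‖T‖ < 1) :
    ContinuousAt (fun S : X => F he (ι S)) T := by
  have h1 : ContinuousAt (F he) (ι T) := (contDiffAt_F he (by rwa [hι])).continuousAt
  exact ContinuousAt.comp (f := fun S : X => ι S) h1 ι.continuous.continuousAt

lemma U_open (ι : X →L[ℝ] (H →L[ℝ] H)) (hι : ∀ T, ‖ι T‖ = ‖T‖) {e : ℕ → H}
    (he : ∀ n, ‖e n‖ ≤ 1) : IsOpen (U ι he) := by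
  rw [isOpen_iff_mem_nhds]
  rintro T ⟨h1, h1'⟩
  have h2 : ∀ᶠ S in 𝓝 T, ‖S‖ < 1 := (continuous_norm.tendsto T).eventually (gt_mem_nhds h1)
  have h3 : ∀ᶠ S : X in 𝓝 T, F he (ι S) < 2 :=
    (continuousAt_F ι hι he h1).eventually (gt_mem_nhds h1')
  exact h2.and h3

lemma ball_subset_U (ι : X →L[ℝ] (H →L[ℝ] H)) (hι : ∀ T, ‖ι T‖ = ‖T‖) {e : ℕ → H}
    (he : ∀ n, ‖e n‖ ≤ 1) : Metric.ball 0 (1 / 2) ⊆ U ι he := by
  intro T hT
  rw [mem_ball_zero_iff] at hT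
  refine ⟨?_, F_lt_two he (by rwa [hι])⟩
  have : (1 / 2 : ℝ) < 1 := by norm_num
  exact hT.trans this

lemma U_nhds (ι : X →L[ℝ] (H →L[ℝ] H)) (hι : ∀ T, ‖ι T‖ = ‖T‖) {e : ℕ → H}
    (he : ∀ n, ‖e n‖ ≤ 1) : U ι he ∈ 𝓝 0 :=
  mem_of_superset (Metric.ball_mem_nhds _ (by norm_num)) (ball_subset_U ι hι he)

lemma U_absorbent (ι : X →L[ℝ] (H →L[ℝ] H)) (hι : ∀ T, ‖ι T‖ = ‖T‖) {e : ℕ → H}
    (he : ∀ n, ‖e n‖ ≤ 1) : Absorbent ℝ (U ι he) :=
  absorbent_nhds_zero (U_nhds ι hι he)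

lemma norm_le_gauge (ι : X →L[ℝ] (H →L[ℝ] H)) (hι : ∀ T, ‖ι T‖ = ‖T‖) {e : ℕ → H}
    (he : ∀ n, ‖e n‖ ≤ 1) (T : X) : ‖T‖ ≤ gauge (U ι he) T := by
  have h := gauge_mono (U_absorbent ι hι he) (t := Metric.ball 0 1) (by
    rintro S ⟨hS, _⟩
    simpa using hS) T
  rwa [gauge_unit_ball] at h

lemma gauge_le_norm (ι : X →L[ℝ] (H →L[ℝ] H)) (hι : ∀ T, ‖ι T‖ = ‖T‖) {e : ℕ → H}
    (he : ∀ n, ‖e n‖ ≤ 1) (T : X) : gauge (U ι he) T ≤ 2 * ‖T‖ := by
  have h := mul_gauge_le_norm (ball_subset_U ι hι he) (x := T)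
  linarith

/-- The defining equation of the new norm. -/
lemma gauge_spec (ι : X →L[ℝ] (H →L[ℝ] H)) (hι : ∀ T, ‖ι T‖ = ‖T‖)
    (hcomp : ∀ T, IsCompactOperator (ι T)) {e : ℕ → H}
    (he : ∀ n, ‖e n‖ ≤ 1) (htot : ∀ v : H, (∀ n, ⟪e n, v⟫ = 0) → v = 0)
    {T : X} (h0 : T ≠ 0) :
    (gauge (U ι he) T)⁻¹ * ‖T‖ < 1 ∧ F he ((gauge (U ι he) T)⁻¹ • ι T) = 2 := by
  have hTpos : 0 < ‖T‖ := norm_pos_iff.2 h0
  have hlam : 0 < gauge (U ι he) T := hTpos.trans_le (norm_le_gauge ι hι he T)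
  set lam := gauge (U ι he) T with hlamdef
  have hs0 : 0 < lam⁻¹ := inv_pos.2 hlam
  -- for s < lam⁻¹ the point s • T is in U
  have hin : ∀ s : ℝ, 0 ≤ s → s < lam⁻¹ → s • T ∈ U ι he := by
    intro s hs hs'
    have h1 : gauge (U ι he) (s • T) < 1 := by
      rw [gauge_smul_of_nonneg hs, smul_eq_mul, ← hlamdef]
      calc s * lam < lam⁻¹ * lam := mul_lt_mul_of_pos_right hs' hlam
        _ = 1 := inv_mul_cancel₀ hlam.ne'
    have h2 := setOfPred_gauge_lt_one_eq_self_of_isOpen (U_convex ι hι he)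
      (mem_of_mem_nhds (U_nhds ι hι he)) (U_open ι hι he)
    rw [← h2]
    exact h1
  have hin' : ∀ s : ℝ, 0 ≤ s → s < lam⁻¹ → F he (s • ι T) < 2 := by
    intro s hs hs'
    have := (hin s hs hs').2
    rwa [map_smul] at this
  have hle : lam⁻¹ * ‖T‖ ≤ 1 := by
    rw [inv_mul_le_iff₀ hlam, mul_one]
    exact norm_le_gauge ι hι he T
  have hT0 : ι T ≠ 0 := by
    intro h
    have := hι T
    rw [h, norm_zero] at this
    exact hTpos.ne this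
  have hlt : lam⁻¹ * ‖T‖ < 1 := by
    refine lt_of_le_of_ne hle ?_
    intro heq
    obtain ⟨c, hc, hblow⟩ := F_blowup he htot (hcomp T) hT0
    rw [hι] at hblow
    -- c ≤ (1 - (s‖T‖)^2) * 2 for s < lam⁻¹, contradiction as s → lam⁻¹
    have h1 : ∀ s : ℝ, 0 ≤ s → s < lam⁻¹ → c ≤ (1 - (s * ‖T‖) ^ 2) * 2 := by
      intro s hs hs'
      have h2 : s * ‖T‖ < 1 := by
        rw [← heq]
        exact mul_lt_mul_of_pos_right hs' hTpos
      have h3 := hblow s hs h2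
      have h4 : F he (s • ι T) < 2 := hin' s hs hs'
      have h5 : 0 ≤ 1 - (s * ‖T‖) ^ 2 := by
        have := mul_nonneg hs hTpos.le
        nlinarith
      exact h3.trans (mul_le_mul_of_nonneg_left h4.le h5)
    have h2 : Tendsto (fun s : ℝ => (1 - (s * ‖T‖) ^ 2) * 2) (𝓝[<] lam⁻¹)
        (𝓝 ((1 - (lam⁻¹ * ‖T‖) ^ 2) * 2)) := by
      apply Tendsto.mono_left _ nhdsWithin_le_nhds
      exact Continuous.tendsto (by fun_prop) _
    have h3 : c ≤ (1 - (lam⁻¹ * ‖T‖) ^ 2) * 2 := by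
      apply ge_of_tendsto h2
      have h4 : ∀ᶠ s in 𝓝[<] lam⁻¹, 0 < s :=
        (nhdsWithin_le_nhds (lt_mem_nhds hs0))
      filter_upwards [h4, self_mem_nhdsWithin] with s hs hs'
      exact h1 s hs.le hs'
    rw [heq] at h3
    norm_num at h3
    linarith
  refine ⟨hlt, ?_⟩
  have hnorm : ‖lam⁻¹ • ι T‖ < 1 := by
    rw [norm_smul, Real.norm_eq_abs, abs_of_pos hs0, hι]; exact hlt
  apply le_antisymm
  · have h2 : Tendsto (fun s : ℝ => F he (s • ι T)) (𝓝[<] lam⁻¹)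
        (𝓝 (F he (lam⁻¹ • ι T))) := by
      apply Tendsto.mono_left _ nhdsWithin_le_nhds
      have h3 : ContinuousAt (F he) (lam⁻¹ • ι T) :=
        (contDiffAt_F he hnorm).continuousAt
      have h4 : ContinuousAt (fun s : ℝ => s • ι T) lam⁻¹ :=
        (continuous_id.smul continuous_const).continuousAt
      exact ContinuousAt.comp (f := fun s : ℝ => s • ι T) h3 h4
    apply le_of_tendsto h2
    have h4 : ∀ᶠ s in 𝓝[<] lam⁻¹, 0 < s :=
      (nhdsWithin_le_nhds (lt_mem_nhds hs0))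
    filter_upwards [h4, self_mem_nhdsWithin] with s hs hs'
    exact (hin' s hs.le hs').le
  · by_contra hcon
    push Not at hcon
    have hmem : lam⁻¹ • T ∈ U ι he := by
      refine ⟨?_, ?_⟩
      · rw [norm_smul, Real.norm_eq_abs, abs_of_pos hs0]; exact hlt
      · rw [map_smul]; exact hcon
    have h1 := gauge_lt_one_of_mem_of_isOpen (U_open ι hι he) hmem
    rw [gauge_smul_of_nonneg hs0.le, smul_eq_mul, ← hlamdef, inv_mul_cancel₀ hlam.ne'] at h1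
    exact lt_irrefl _ h1

/-- the equation function -/
noncomputable def FK (ι : X →L[ℝ] (H →L[ℝ] H)) {e : ℕ → H} (he : ∀ n, ‖e n‖ ≤ 1)
    (p : X × ℝ) : ℝ := F he (p.2 • ι p.1)

lemma contDiffAt_FK (ι : X →L[ℝ] (H →L[ℝ] H)) {e : ℕ → H} (he : ∀ n, ‖e n‖ ≤ 1)
    {p : X × ℝ} (hp : ‖p.2 • ι p.1‖ < 1) :
    ContDiffAt ℝ ω (FK ι he) p := by
  have h1 : ContDiffAt ℝ ω (fun q : X × ℝ => q.2 • ι q.1) p := by
    have h2 : ContDiff ℝ ω (fun q : X × ℝ => ι q.1) := ι.contDiff.comp contDiff_fst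
    exact (contDiff_snd.smul h2).contDiffAt
  exact (contDiffAt_F he hp).comp p h1

lemma deriv_pos {e : ℕ → H} (he : ∀ n, ‖e n‖ ≤ 1) {T : H →L[ℝ] H} {s₀ c : ℝ} (hs₀ : 0 < s₀)
    (hs : s₀ * ‖T‖ < 1) (hF : F he (s₀ • T) = 2)
    (hd : HasDerivAt (fun s : ℝ => F he (s • T)) c s₀) : c ≠ 0 := by
  intro hc
  subst hc
  have hconv : ConvexOn ℝ (Set.Icc 0 s₀) (fun s : ℝ => F he (s • T)) := by
    refine ⟨convex_Icc _ _, ?_⟩
    intro x hx y hy a b ha hb hab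
    have hbound : ∀ z ∈ Set.Icc 0 s₀, ‖z • T‖ < 1 := by
      intro z hz
      rw [norm_smul, Real.norm_eq_abs, abs_of_nonneg hz.1]
      exact (mul_le_mul_of_nonneg_right hz.2 (norm_nonneg T)).trans_lt hs
    have hz := convex_Icc 0 s₀ hx hy ha hb hab
    have e1 : (a • x + b • y) • T = a • (x • T) + b • (y • T) := by
      rw [add_smul, smul_smul, smul_smul]; rfl
    have h3 := F_convex he (hbound x hx) (hbound y hy) ha hb hab (by
      rw [← e1]; exact hbound _ hz)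
    simp only
    rw [e1]
    exact h3
  have h1 := hconv.slope_le_of_hasDerivAt (x := 0) (y := s₀) ⟨le_rfl, hs₀.le⟩ ⟨hs₀.le, le_rfl⟩
    hs₀ hd
  rw [slope_def_field] at h1
  simp only [zero_smul, sub_zero] at h1
  rw [hF, div_le_iff₀ hs₀, zero_mul] at h1
  have := F_zero he
  linarith

theorem main [CompleteSpace X] (ι : X →L[ℝ] (H →L[ℝ] H)) (hι : ∀ T, ‖ι T‖ = ‖T‖)
    (hcomp : ∀ T, IsCompactOperator (ι T)) {e : ℕ → H} (he : ∀ n, ‖e n‖ ≤ 1)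
    (htot : ∀ v : H, (∀ n, ⟪e n, v⟫ = 0) → v = 0) :
    ∃ N : Seminorm ℝ X, (∀ T : X, 1 * ‖T‖ ≤ N T ∧ N T ≤ 2 * ‖T‖) ∧
        AnalyticOnNhd ℝ (fun T => N T) {T : X | T ≠ 0} := by
  refine ⟨gaugeSeminorm (U_balanced ι hι he) (U_convex ι hι he) (U_absorbent ι hι he), ?_, ?_⟩
  · intro T
    refine ⟨?_, gauge_le_norm ι hι he T⟩
    rw [one_mul]
    exact norm_le_gauge ι hι he T
  · intro T₀ hT₀
    have hT₀' : T₀ ≠ 0 := hT₀
    change AnalyticAt ℝ (fun T => gauge (U ι he) T) T₀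
    have hTpos : 0 < ‖T₀‖ := norm_pos_iff.2 hT₀'
    have hlam : 0 < gauge (U ι he) T₀ := hTpos.trans_le (norm_le_gauge ι hι he T₀)
    obtain ⟨hs1, hs2⟩ := gauge_spec ι hι hcomp he htot hT₀'
    set s₀ := (gauge (U ι he) T₀)⁻¹ with hs₀def
    have hs₀ : 0 < s₀ := inv_pos.2 hlam
    have hnorm : ‖s₀ • ι T₀‖ < 1 := by
      rw [norm_smul, Real.norm_eq_abs, abs_of_pos hs₀, hι]; exact hs1
    have cdf : ContDiffAt ℝ ω (FK ι he) (T₀, s₀) := contDiffAt_FK ι he hnorm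
    have pn : (ω : WithTop ℕ∞) ≠ 0 := by simp
    -- the partial derivative in s
    have hdiff : DifferentiableAt ℝ (FK ι he) (T₀, s₀) := cdf.differentiableAt pn
    have hderiv : HasDerivAt (fun s : ℝ => F he (s • ι T₀))
        (fderiv ℝ (FK ι he) (T₀, s₀) (0, 1)) s₀ := by
      have h1 : HasDerivAt (fun s : ℝ => (T₀, s)) ((0 : X), (1 : ℝ)) s₀ :=
        (hasDerivAt_const s₀ T₀).prodMk (hasDerivAt_id s₀)
      exact hdiff.hasFDerivAt.comp_hasDerivAt s₀ h1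
    have hc := deriv_pos he hs₀ (by rw [hι]; exact hs1) hs2 hderiv
    have if₂ : (fderiv ℝ (FK ι he) (T₀, s₀) ∘L .inr ℝ X ℝ).IsInvertible := by
      set c := fderiv ℝ (FK ι he) (T₀, s₀) (0, 1) with hcdef
      refine ⟨ContinuousLinearEquiv.unitsEquivAut ℝ (Units.mk0 c hc), ?_⟩
      ext
      simp [hcdef]
    have h1 := cdf.eventually_apply_eq_iff_implicitFunction pn if₂
    have h2 := cdf.contDiffAt_implicitFunction pn if₂
    have h6 := cdf.implicitFunction_apply_self pn if₂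
    set ψ := cdf.implicitFunction pn if₂ with hψ
    have hcont : ContinuousAt (fun T => (T, (gauge (U ι he) T)⁻¹)) T₀ := by
      apply ContinuousAt.prodMk continuousAt_id
      exact (continuousAt_gauge (U_convex ι hι he) (U_nhds ι hι he)).inv₀ hlam.ne'
    have h3 : ∀ᶠ T in 𝓝 T₀, FK ι he (T, (gauge (U ι he) T)⁻¹) = FK ι he (T₀, s₀) ↔
        ψ T = (gauge (U ι he) T)⁻¹ := hcont.tendsto.eventually h1
    have h4 : ∀ᶠ T in 𝓝 T₀, T ≠ 0 := isOpen_ne.mem_nhds hT₀'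
    have h5 : ∀ᶠ T in 𝓝 T₀, gauge (U ι he) T = (ψ T)⁻¹ := by
      filter_upwards [h3, h4] with T hT hT0
      have h6 := (gauge_spec ι hι hcomp he htot hT0).2
      have h7 : FK ι he (T, (gauge (U ι he) T)⁻¹) = FK ι he (T₀, s₀) := by
        simp only [FK]
        rw [h6, hs2]
      rw [hT.1 h7, inv_inv]
    have h7 : ContDiffAt ℝ ω (fun T => (ψ T)⁻¹) T₀ := by
      apply ContDiffAt.inv h2
      change ψ T₀ ≠ 0
      rw [show ψ T₀ = s₀ from h6]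
      exact hs₀.ne'
    exact (h7.analyticAt).congr (h5.mono fun T hT => hT.symm)

end Pool.Agent.Lib4704
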