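import Pool.Agent.Lib_MP_4704fc09_an.Core

set_option autoImplicit false

namespace Pool.Agent.Lib4704

open Filter Topology
open scoped RealInnerProductSpace ContDiff

variable {H : Type*} [NormedAddCommGroup H] [InnerProductSpace ℝ H] [CompleteSpace H]

/-- `B ↦ ⟨e, B e⟩` -/
noncomputable def vecState (e : H) : (H →L[ℝ] H) →L[ℝ] ℝ :=
  (innerSL ℝ e) ∘L (ContinuousLinearMap.apply ℝ H e)

lemma vecState_apply (e : H) (B : H →L[ℝ] H) : vecState e B = ⟪e, B e⟫ := rfl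

lemma vecState_norm {e : H} (he : ‖e‖ ≤ 1) : ‖vecState e‖ ≤ 1 := by
  apply ContinuousLinearMap.opNorm_le_bound _ zero_le_one
  intro B
  rw [vecState_apply, one_mul, Real.norm_eq_abs]
  refine (abs_real_inner_le_norm e (B e)).trans ?_
  calc ‖e‖ * ‖B e‖ ≤ 1 * (‖B‖ * 1) := by
        apply mul_le_mul he _ (norm_nonneg _) zero_le_one
        exact (B.le_opNorm e).trans (mul_le_mul_of_nonneg_left he (norm_nonneg _))
    _ = ‖B‖ := by ring

/-- the weights -/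
noncomputable def wt (n : ℕ) : ℝ := (1 / 2 : ℝ) ^ (n + 1)

lemma wt_pos (n : ℕ) : 0 < wt n := by unfold wt; positivity

lemma hasSum_wt : HasSum wt 1 := by
  have h2 := (hasSum_geometric_of_lt_one (r := (1 / 2 : ℝ)) (by norm_num) (by norm_num)).mul_left
    (1 / 2 : ℝ)
  have e : (1 / 2 : ℝ) * (1 - 1 / 2)⁻¹ = 1 := by norm_num
  rw [e] at h2
  have e2 : wt = fun n : ℕ => (1 / 2 : ℝ) * (1 / 2) ^ n := by
    funext n
    unfold wt
    ring
  rw [e2]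
  exact h2

/-- a weighted sum of functionals -/
lemma exists_weighted {X : Type*} [NormedAddCommGroup X] [NormedSpace ℝ X] (g : ℕ → X →L[ℝ] ℝ)
    (hg : ∀ n, ‖g n‖ ≤ 1) : ∃ Φ : X →L[ℝ] ℝ, ∀ B, HasSum (fun n => wt n * g n B) (Φ B) := by
  have h1 : ∀ n, ‖wt n • g n‖ ≤ wt n := by
    intro n
    rw [norm_smul, Real.norm_eq_abs, abs_of_pos (wt_pos n)]
    calc wt n * ‖g n‖ ≤ wt n * 1 := mul_le_mul_of_nonneg_left (hg n) (wt_pos n).le
      _ = _ := mul_one _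
  have h2 : Summable (fun n => wt n • g n) := Summable.of_norm_bounded hasSum_wt.summable h1
  refine ⟨∑' n, wt n • g n, fun B => ?_⟩
  have h3 := (ContinuousLinearMap.apply ℝ ℝ B).hasSum h2.hasSum
  simpa using h3

lemma exists_Φ {e : ℕ → H} (he : ∀ n, ‖e n‖ ≤ 1) :
    ∃ Φ : (H →L[ℝ] H) →L[ℝ] ℝ, ∀ B, HasSum (fun n => wt n * ⟪e n, B (e n)⟫) (Φ B) :=
  exists_weighted (fun n => vecState (e n)) (fun n => vecState_norm (he n))

/-- the weighted functional `B ↦ ∑ 2^{-(n+1)} ⟨e n, B (e n)⟩` -/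
noncomputable def Φ {e : ℕ → H} (he : ∀ n, ‖e n‖ ≤ 1) : (H →L[ℝ] H) →L[ℝ] ℝ :=
  (exists_Φ he).choose

lemma hasSum_Φ {e : ℕ → H} (he : ∀ n, ‖e n‖ ≤ 1) (B : H →L[ℝ] H) :
    HasSum (fun n => wt n * ⟪e n, B (e n)⟫) (Φ he B) := (exists_Φ he).choose_spec B

/-- the function whose sublevel set is the new unit ball -/
noncomputable def F {e : ℕ → H} (he : ∀ n, ‖e n‖ ≤ 1) (T : H →L[ℝ] H) : ℝ := Φ he (R T)

lemma hasSum_F {e : ℕ → H} (he : ∀ n, ‖e n‖ ≤ 1) (T : H →L[ℝ] H) :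
    HasSum (fun n => wt n * G T (e n)) (F he T) := hasSum_Φ he (R T)

lemma F_convex {e : ℕ → H} (he : ∀ n, ‖e n‖ ≤ 1) {T₁ T₂ : H →L[ℝ] H} (h1 : ‖T₁‖ < 1)
    (h2 : ‖T₂‖ < 1) {a b : ℝ} (ha : 0 ≤ a) (hb : 0 ≤ b) (hab : a + b = 1)
    (hT : ‖a • T₁ + b • T₂‖ < 1) :
    F he (a • T₁ + b • T₂) ≤ a * F he T₁ + b * F he T₂ := by
  have s := hasSum_F he (a • T₁ + b • T₂)
  have s1 := (hasSum_F he T₁).mul_left a
  have s2 := (hasSum_F he T₂).mul_left b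
  refine hasSum_le (fun n => ?_) s (s1.add s2)
  have := G_convex h1 h2 ha hb hab hT (e n)
  have hp := wt_pos n
  nlinarith

lemma F_neg {e : ℕ → H} (he : ∀ n, ‖e n‖ ≤ 1) (T : H →L[ℝ] H) : F he (-T) = F he T := by
  simp [F, R]

lemma F_zero {e : ℕ → H} (he : ∀ n, ‖e n‖ ≤ 1) : F he 0 ≤ 1 := by
  have s := hasSum_F he 0
  refine hasSum_le (fun n => ?_) s hasSum_wt
  have h := G_le (T := (0 : H →L[ℝ] H)) (by simp) (e n)
  have h2 : ‖e n‖ ^ 2 ≤ 1 := by nlinarith [he n, norm_nonneg (e n)]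
  have h3 : G (0 : H →L[ℝ] H) (e n) ≤ 1 := by
    refine h.trans ?_
    simpa using h2
  have hp := wt_pos n
  nlinarith

lemma F_lt_two {e : ℕ → H} (he : ∀ n, ‖e n‖ ≤ 1) {T : H →L[ℝ] H} (hT : ‖T‖ < 1 / 2) :
    F he T < 2 := by
  have s := hasSum_F he T
  have s2 := hasSum_wt.mul_left (4 / 3 : ℝ)
  have : F he T ≤ 4 / 3 * 1 := by
    refine hasSum_le (fun n => ?_) s s2
    have h := G_le (T := T) (by linarith) (e n)
    have h2 : ‖e n‖ ^ 2 ≤ 1 := by nlinarith [he n, norm_nonneg (e n)]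
    have h4 : 3 / 4 ≤ 1 - ‖T‖ ^ 2 := by nlinarith [norm_nonneg T]
    have h3 : G T (e n) ≤ 4 / 3 := by
      refine h.trans ?_
      rw [div_le_iff₀ (by linarith)]
      linarith
    have hp := wt_pos n
    nlinarith
  linarith

lemma F_blowup {e : ℕ → H} (he : ∀ n, ‖e n‖ ≤ 1) (htot : ∀ v : H, (∀ n, ⟪e n, v⟫ = 0) → v = 0)
    {T : H →L[ℝ] H} (hT : IsCompactOperator T) (h0 : T ≠ 0) :
    ∃ c : ℝ, 0 < c ∧ ∀ s : ℝ, 0 ≤ s → s * ‖T‖ < 1 → c ≤ (1 - (s * ‖T‖) ^ 2) * F he (s • T) := by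
  obtain ⟨v, hv, hTv⟩ := exists_norm_attained hT h0
  have hv0 : v ≠ 0 := by
    rintro rfl
    rw [map_zero, norm_zero] at hTv
    exact h0 (norm_eq_zero.1 hTv.symm)
  have hex : ∃ n, ⟪e n, v⟫ ≠ 0 := by
    by_contra hcon
    push Not at hcon
    exact hv0 (htot v hcon)
  obtain ⟨n, hn⟩ := hex
  refine ⟨wt n * ⟪e n, v⟫ ^ 2, mul_pos (wt_pos n) (by positivity), fun s hs hsT => ?_⟩
  have hnorm : ‖s • T‖ < 1 := by
    rw [norm_smul, Real.norm_eq_abs, abs_of_nonneg hs]; exact hsT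
  have h1 := G_blowup hv hTv hs hsT (e n)
  have h2 : wt n * G (s • T) (e n) ≤ F he (s • T) := by
    refine le_hasSum (hasSum_F he (s • T)) n (fun k _ => ?_)
    exact mul_nonneg (wt_pos k).le (G_nonneg hnorm _)
  have h3 : 0 < 1 - (s * ‖T‖) ^ 2 := by
    have := mul_nonneg hs (norm_nonneg T)
    nlinarith
  have hp := wt_pos n
  calc wt n * ⟪e n, v⟫ ^ 2
      ≤ wt n * ((1 - (s * ‖T‖) ^ 2) * G (s • T) (e n)) :=
        mul_le_mul_of_nonneg_left h1 hp.le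
    _ = (1 - (s * ‖T‖) ^ 2) * (wt n * G (s • T) (e n)) := by ring
    _ ≤ (1 - (s * ‖T‖) ^ 2) * F he (s • T) := mul_le_mul_of_nonneg_left h2 h3.le

lemma isBoundedBilinearMap_adj :
    IsBoundedBilinearMap ℝ (fun p : (H →L[ℝ] H) × (H →L[ℝ] H) =>
      (ContinuousLinearMap.adjoint p.1) ∘L p.2) where
  add_left x₁ x₂ y := by simp [ContinuousLinearMap.add_comp]
  smul_left c x y := by simp [ContinuousLinearMap.smul_comp]
  add_right x y₁ y₂ := by simp [ContinuousLinearMap.comp_add]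
  smul_right c x y := by simp [ContinuousLinearMap.comp_smul]
  bound := by
    refine ⟨1, one_pos, fun x y => ?_⟩
    calc ‖(ContinuousLinearMap.adjoint x) ∘L y‖ ≤ ‖ContinuousLinearMap.adjoint x‖ * ‖y‖ :=
          ContinuousLinearMap.opNorm_comp_le _ _
      _ = 1 * ‖x‖ * ‖y‖ := by simp

lemma contDiffAt_F {e : ℕ → H} (he : ∀ n, ‖e n‖ ≤ 1) {T : H →L[ℝ] H} (hT : ‖T‖ < 1) :
    ContDiffAt ℝ ω (F he) T := by
  have h1 : ContDiffAt ℝ ω (fun T : H →L[ℝ] H => (ContinuousLinearMap.adjoint T) ∘L T) T := by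
    have := (isBoundedBilinearMap_adj (H := H)).contDiff (n := ω)
    exact (this.comp (contDiff_id.prodMk contDiff_id)).contDiffAt
  have h2 : ContDiffAt ℝ ω (fun T : H →L[ℝ] H =>
      (1 : H →L[ℝ] H) - (ContinuousLinearMap.adjoint T) ∘L T) T := contDiffAt_const.sub h1
  obtain ⟨u, hu⟩ := isUnit_aux hT
  have h3 : ContDiffAt ℝ ω (Ring.inverse : (H →L[ℝ] H) → (H →L[ℝ] H))
      ((1 : H →L[ℝ] H) - (ContinuousLinearMap.adjoint T) ∘L T) := by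
    rw [← hu]; exact contDiffAt_ringInverse ℝ u
  have h4 : ContDiffAt ℝ ω (R : (H →L[ℝ] H) → (H →L[ℝ] H)) T := h3.comp T h2
  exact (Φ he).contDiff.contDiffAt.comp T h4

end Pool.Agent.Lib4704
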